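import Mathlib
import Pool.Agent.H307R2.LU

/-!
Partial sums of Dirichlet series of simple multiplicative functions, uniformly on compact sets.
-/

set_option autoImplicit false

open Filter Topology Complex

namespace Pool.Agent.N800.TP

noncomputable section

/-- partial sum -/
def PS (a : ℕ → ℂ) (x : ℝ) (s : ℂ) : ℂ := ∑ n ∈ Finset.Icc 1 ⌊x⌋₊, a n * (n : ℂ) ^ (-s)

/-- the compact region -/
def KK (R r : ℝ) : Set ℂ := {s | 3 / 4 ≤ s.re ∧ s.re ≤ 5 / 4 ∧ ‖s‖ ≤ R ∧ r ≤ ‖s - 1‖}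

/-- asymptotic formula for the partial sums -/
def Good (R r : ℝ) (a : ℕ → ℂ) (F : ℂ → ℂ) (ρ : ℂ) : Prop :=
  ∃ C : ℝ, 0 ≤ C ∧ ∀ s ∈ KK R r, ∀ x : ℝ, 0 < x →
    ‖PS a x s - F s - ρ * ((x : ℂ) ^ (1 - s) / (1 - s))‖ ≤ C * x ^ (-(1 / 4) : ℝ)

theorem KK_compact (R r : ℝ) : IsCompact (KK R r) := by
  refine Metric.isCompact_of_isClosed_isBounded ?_ ?_
  · have : KK R r = {s | 3 / 4 ≤ s.re} ∩ ({s | s.re ≤ 5 / 4} ∩ ({s | ‖s‖ ≤ R} ∩ {s | r ≤ ‖s - 1‖})) := by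
      ext s; rfl
    rw [this]
    refine (isClosed_le continuous_const Complex.continuous_re).inter
      ((isClosed_le Complex.continuous_re continuous_const).inter
      ((isClosed_le continuous_norm continuous_const).inter
      (isClosed_le continuous_const (by fun_prop))))
  · refine (Metric.isBounded_closedBall (x := (0 : ℂ)) (r := R)).subset ?_
    intro s hs
    simpa using hs.2.2.1

theorem PS_lt_one (a : ℕ → ℂ) {x : ℝ} (hx : x < 1) (s : ℂ) : PS a x s = 0 := by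
  unfold PS
  have : ⌊x⌋₊ = 0 := by
    rw [Nat.floor_eq_zero]; exact hx
  rw [this]; simp

/-- the base case -/
theorem good_one {R r : ℝ} (hr : 0 < r) : Good R r (fun _ => 1) riemannZeta 1 := by
  obtain ⟨M, hM⟩ : ∃ M : ℝ, ∀ s ∈ KK R r, ‖riemannZeta s‖ ≤ M := by
    refine (KK_compact R r).exists_bound_of_continuousOn ?_
    intro s hs
    refine (differentiableAt_riemannZeta ?_).continuousAt.continuousWithinAt
    rintro rfl
    have := hs.2.2.2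
    simp at this
    linarith
  refine ⟨|M| + 1 / r + 2 * (1 + 2 * |R|), by positivity, ?_⟩
  intro s hs x hx
  have hs1 : s ≠ 1 := by
    rintro rfl
    have := hs.2.2.2
    simp at this
    linarith
  have hs1' : (1 - s) ≠ 0 := by
    intro h
    apply hs1
    linear_combination -h
  have hnr : r ≤ ‖1 - s‖ := by rw [norm_sub_rev]; exact hs.2.2.2
  have hRs : ‖s‖ ≤ |R| := hs.2.2.1.trans (le_abs_self R)
  have hre : 3 / 4 ≤ s.re := hs.1
  have hre2 : s.re ≤ 5 / 4 := hs.2.1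
  rcases lt_or_ge x 1 with hx1 | hx1
  · rw [PS_lt_one _ hx1]
    have hxp : 1 ≤ x ^ (-(1 / 4) : ℝ) := Real.one_le_rpow_of_pos_of_le_one_of_nonpos hx hx1.le (by norm_num)
    have h1 : ‖(x : ℂ) ^ (1 - s)‖ ≤ x ^ (-(1 / 4) : ℝ) := by
      rw [Complex.norm_cpow_eq_rpow_re_of_pos hx]
      refine Real.rpow_le_rpow_of_exponent_ge hx hx1.le ?_
      simp; linarith
    have h2 : ‖1 * ((x : ℂ) ^ (1 - s) / (1 - s))‖ ≤ 1 / r * x ^ (-(1 / 4) : ℝ) := by
      rw [one_mul, norm_div, div_eq_inv_mul, one_div]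
      gcongr
    have h3 : ‖riemannZeta s‖ ≤ |M| * x ^ (-(1 / 4) : ℝ) := by
      calc ‖riemannZeta s‖ ≤ |M| := (hM s hs).trans (le_abs_self _)
        _ = |M| * 1 := (mul_one _).symm
        _ ≤ _ := by gcongr
    calc ‖0 - riemannZeta s - 1 * ((x : ℂ) ^ (1 - s) / (1 - s))‖ ≤
        ‖0 - riemannZeta s‖ + ‖1 * ((x : ℂ) ^ (1 - s) / (1 - s))‖ := norm_sub_le _ _
      _ ≤ |M| * x ^ (-(1 / 4) : ℝ) + 1 / r * x ^ (-(1 / 4) : ℝ) := by
          rw [zero_sub, norm_neg]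
          exact add_le_add h3 h2
      _ ≤ _ := by
          have : 0 ≤ 2 * (1 + 2 * |R|) * x ^ (-(1 / 4) : ℝ) := by positivity
          nlinarith
  · set N := ⌊x⌋₊ with hN
    have hN1 : 1 ≤ N := by
      rw [hN]; exact (Nat.one_le_floor_iff x).2 hx1
    have hNx : (N : ℝ) ≤ x := Nat.floor_le hx.le
    have hxN : x < N + 1 := Nat.lt_floor_add_one x
    have hNr : (1 : ℝ) ≤ N := by exact_mod_cast hN1
    have hN0 : (0 : ℝ) < N := by linarith
    have h1 := Pool.Agent.H307R2.zeta_eq hN1 (s := s) (by linarith) hs1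
    have h2 := Pool.Agent.H307R2.TM_norm_le hN1 Pool.Agent.H307R2.Ez_norm_le (s := s) (by linarith)
    have h3 : PS (fun _ => 1) x s = ∑ n ∈ Finset.Icc 1 N, (n : ℂ) ^ (-s) := by
      unfold PS
      simp only [one_mul]
      rfl
    have h4 : ((x : ℂ) ^ (1 - s) - (N : ℂ) ^ (1 - s)) / (1 - s) = ∫ u in (N : ℝ)..x, (u : ℂ) ^ (-s) := by
      rw [integral_cpow]
      · have : -s + 1 = 1 - s := by ring
        rw [this]
        simp
      · right
        refine ⟨?_, ?_⟩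
        · intro h
          apply hs1
          linear_combination -h
        · rw [Set.uIcc_of_le hNx]
          intro h
          have := h.1
          linarith
    have h5 : ‖∫ u in (N : ℝ)..x, (u : ℂ) ^ (-s)‖ ≤ (N : ℝ) ^ (-(3 / 4) : ℝ) * |x - N| := by
      refine intervalIntegral.norm_integral_le_of_norm_le_const ?_
      intro u hu
      rw [Set.uIoc_of_le hNx] at hu
      have hu0 : 0 < u := by linarith [hu.1]
      rw [Complex.norm_cpow_eq_rpow_re_of_pos hu0]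
      calc u ^ (-s).re ≤ u ^ (-(3 / 4) : ℝ) := by
            refine Real.rpow_le_rpow_of_exponent_le (by linarith [hu.1]) ?_
            simp; linarith
        _ ≤ (N : ℝ) ^ (-(3 / 4) : ℝ) :=
            Real.rpow_le_rpow_of_nonpos hN0 hu.1.le (by norm_num)
    have h6 : |x - N| ≤ 1 := by
      rw [abs_of_nonneg (by linarith)]; linarith
    have h7 : ‖s * Pool.Agent.H307R2.TM N Pool.Agent.H307R2.Ez s‖ ≤ 2 * |R| * (N : ℝ) ^ (-(3 / 4) : ℝ) := by
      rw [norm_mul]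
      have h8 : (N : ℝ) ^ (-s.re) ≤ (N : ℝ) ^ (-(3 / 4) : ℝ) :=
        Real.rpow_le_rpow_of_exponent_le hNr (by linarith)
      have h9 : (N : ℝ) ^ (-s.re) / s.re ≤ 2 * (N : ℝ) ^ (-(3 / 4) : ℝ) := by
        rw [div_le_iff₀ (by linarith)]
        have : 0 < (N : ℝ) ^ (-(3 / 4) : ℝ) := by positivity
        nlinarith
      calc ‖s‖ * ‖Pool.Agent.H307R2.TM N Pool.Agent.H307R2.Ez s‖ ≤ |R| * (1 * ((N : ℝ) ^ (-s.re) / s.re)) := by
            refine mul_le_mul hRs h2 (norm_nonneg _) (abs_nonneg _)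
        _ ≤ |R| * (1 * (2 * (N : ℝ) ^ (-(3 / 4) : ℝ))) := by gcongr
        _ = _ := by ring
    have h10 : PS (fun _ => 1) x s - riemannZeta s - 1 * ((x : ℂ) ^ (1 - s) / (1 - s)) =
        -(∫ u in (N : ℝ)..x, (u : ℂ) ^ (-s)) - s * Pool.Agent.H307R2.TM N Pool.Agent.H307R2.Ez s := by
      rw [h3, ← h4, h1]
      have : (s - 1) ≠ 0 := sub_ne_zero.2 hs1
      field_simp
      ring
    rw [h10]
    have h11 : (N : ℝ) ^ (-(3 / 4) : ℝ) ≤ 2 * x ^ (-(1 / 4) : ℝ) := by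
      have hx2 : x / 2 ≤ N := by linarith
      calc (N : ℝ) ^ (-(3 / 4) : ℝ) ≤ (x / 2) ^ (-(3 / 4) : ℝ) :=
            Real.rpow_le_rpow_of_nonpos (by linarith) hx2 (by norm_num)
        _ = x ^ (-(3 / 4) : ℝ) * (2 : ℝ) ^ (3 / 4 : ℝ) := by
            rw [Real.div_rpow hx.le (by norm_num), Real.rpow_neg (by norm_num : (0 : ℝ) ≤ 2)]
            field_simp
        _ ≤ x ^ (-(1 / 4) : ℝ) * (2 : ℝ) ^ (1 : ℝ) := by
            refine mul_le_mul (Real.rpow_le_rpow_of_exponent_le hx1 (by norm_num))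
              (Real.rpow_le_rpow_of_exponent_le (by norm_num) (by norm_num)) (by positivity)
              (by positivity)
        _ = _ := by rw [Real.rpow_one]; ring
    calc ‖-(∫ u in (N : ℝ)..x, (u : ℂ) ^ (-s)) - s * Pool.Agent.H307R2.TM N Pool.Agent.H307R2.Ez s‖
        ≤ ‖-(∫ u in (N : ℝ)..x, (u : ℂ) ^ (-s))‖ + ‖s * Pool.Agent.H307R2.TM N Pool.Agent.H307R2.Ez s‖ :=
          norm_sub_le _ _
      _ ≤ (N : ℝ) ^ (-(3 / 4) : ℝ) * 1 + 2 * |R| * (N : ℝ) ^ (-(3 / 4) : ℝ) := by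
          rw [norm_neg]
          refine add_le_add (h5.trans ?_) h7
          gcongr
      _ = (1 + 2 * |R|) * (N : ℝ) ^ (-(3 / 4) : ℝ) := by ring
      _ ≤ (1 + 2 * |R|) * (2 * x ^ (-(1 / 4) : ℝ)) := by gcongr
      _ ≤ _ := by
          have h12 : 0 < x ^ (-(1 / 4) : ℝ) := by positivity
          have h13 : 0 ≤ (|M| + 1 / r) * x ^ (-(1 / 4) : ℝ) := by positivity
          nlinarith

/-- splitting off the multiples of `p` -/
theorem PS_split {b : ℕ → ℂ} {p : ℕ} (hp : p.Prime) {g : ℂ} (hb : ∀ m, 1 ≤ m → b (p * m) = g * b m)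
    (x : ℝ) (s : ℂ) :
    PS b x s = PS (fun n => if p ∣ n then 0 else b n) x s + g * (p : ℂ) ^ (-s) * PS b (x / p) s := by
  unfold PS
  have hp0 : 0 < p := hp.pos
  have h1 : ∑ n ∈ Finset.Icc 1 ⌊x⌋₊, b n * (n : ℂ) ^ (-s) =
      ∑ n ∈ Finset.Icc 1 ⌊x⌋₊, (if p ∣ n then 0 else b n) * (n : ℂ) ^ (-s) +
      ∑ n ∈ (Finset.Icc 1 ⌊x⌋₊).filter (fun n => p ∣ n), b n * (n : ℂ) ^ (-s) := by
    rw [Finset.sum_filter, ← Finset.sum_add_distrib]
    refine Finset.sum_congr rfl fun n _ => ?_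
    split_ifs <;> simp
  rw [h1]
  congr 1
  rw [Finset.mul_sum]
  symm
  refine Finset.sum_nbij' (fun m => p * m) (fun n => n / p) ?_ ?_ ?_ ?_ ?_
  · intro m hm
    rw [Finset.mem_Icc] at hm
    rw [Finset.mem_filter, Finset.mem_Icc]
    have h2 : m ≤ ⌊x⌋₊ / p := by rw [← Nat.floor_div_natCast]; exact hm.2
    refine ⟨⟨?_, ?_⟩, dvd_mul_right _ _⟩
    · exact Nat.mul_pos hp0 hm.1
    · calc p * m ≤ p * (⌊x⌋₊ / p) := Nat.mul_le_mul_left _ h2
        _ ≤ _ := Nat.mul_div_le _ _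
  · intro n hn
    rw [Finset.mem_filter, Finset.mem_Icc] at hn
    rw [Finset.mem_Icc, Nat.floor_div_natCast]
    obtain ⟨⟨h2, h3⟩, m, rfl⟩ := hn
    rw [Nat.mul_div_cancel_left _ hp0]
    refine ⟨Nat.pos_of_ne_zero fun h => by simp [h] at h2, ?_⟩
    rw [Nat.le_div_iff_mul_le hp0]
    linarith [mul_comm p m]
  · intro m _
    exact Nat.mul_div_cancel_left _ hp0
  · intro n hn
    rw [Finset.mem_filter] at hn
    exact Nat.mul_div_cancel' hn.2
  · intro m hm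
    rw [Finset.mem_Icc] at hm
    rw [hb m hm.1]
    push_cast
    rw [Complex.natCast_mul_natCast_cpow]
    ring

/-- algebra of the main term -/
theorem main_term {p : ℕ} (hp : p.Prime) {x : ℝ} (hx : 0 < x) (s : ℂ) :
    (p : ℂ) ^ (-s) * (((x / p : ℝ) : ℂ) ^ (1 - s)) = (x : ℂ) ^ (1 - s) / p := by
  have hp0 : (0 : ℝ) < p := by exact_mod_cast hp.pos
  have hpc : (p : ℂ) ≠ 0 := by exact_mod_cast hp.ne_zero
  have h1 : (x : ℂ) ^ (1 - s) = ((x / p : ℝ) : ℂ) ^ (1 - s) * (p : ℂ) ^ (1 - s) := by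
    have h2 : (x : ℂ) = ((x / p : ℝ) : ℂ) * ((p : ℝ) : ℂ) := by
      push_cast
      field_simp
    conv_lhs => rw [h2]
    rw [Complex.mul_cpow_ofReal_nonneg (by positivity) hp0.le]
    simp
  rw [h1]
  have h3 : (p : ℂ) ^ (1 - s) = p * (p : ℂ) ^ (-s) := by
    rw [sub_eq_add_neg, Complex.cpow_add _ _ hpc, Complex.cpow_one]
  rw [h3]
  field_simp

theorem norm_p_le {p : ℕ} (hp : p.Prime) {R r : ℝ} {s : ℂ} (hs : s ∈ KK R r) :
    ‖(p : ℂ) ^ (-s)‖ ≤ (p : ℝ) ^ (-(3 / 4) : ℝ) := by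
  have hp0 : (0 : ℝ) < p := by exact_mod_cast hp.pos
  have hp1 : (1 : ℝ) ≤ p := by exact_mod_cast hp.one_lt.le
  have : (p : ℂ) = ((p : ℝ) : ℂ) := by simp
  rw [this, Complex.norm_cpow_eq_rpow_re_of_pos hp0]
  refine Real.rpow_le_rpow_of_exponent_le hp1 ?_
  simp; exact hs.1

/-- removal of a prime -/
theorem Good.remove {R r : ℝ} {b : ℕ → ℂ} {F : ℂ → ℂ} {ρ : ℂ} (h : Good R r b F ρ) {p : ℕ}
    (hp : p.Prime) {g : ℂ} (hg : ‖g‖ = 1) (hb : ∀ m, 1 ≤ m → b (p * m) = g * b m) :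
    Good R r (fun n => if p ∣ n then 0 else b n) (fun s => F s * (1 - g * (p : ℂ) ^ (-s)))
      (ρ * (1 - g / p)) := by
  obtain ⟨C, hC, h⟩ := h
  refine ⟨2 * C, by positivity, ?_⟩
  intro s hs x hx
  have hp0 : (0 : ℝ) < p := by exact_mod_cast hp.pos
  have hp1 : (1 : ℝ) ≤ p := by exact_mod_cast hp.one_lt.le
  have h1 := h s hs x hx
  have h2 := h s hs (x / p) (by positivity)
  have h3 : PS (fun n => if p ∣ n then 0 else b n) x s - F s * (1 - g * (p : ℂ) ^ (-s)) -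
      ρ * (1 - g / p) * ((x : ℂ) ^ (1 - s) / (1 - s)) =
      (PS b x s - F s - ρ * ((x : ℂ) ^ (1 - s) / (1 - s))) - g * (p : ℂ) ^ (-s) *
      (PS b (x / p) s - F s - ρ * (((x / p : ℝ) : ℂ) ^ (1 - s) / (1 - s))) := by
    have h4 := main_term hp hx s
    rw [PS_split hp hb x s]
    linear_combination (-g * ρ / (1 - s)) * h4
  rw [h3]
  have h5 : ‖g * (p : ℂ) ^ (-s) * (PS b (x / p) s - F s - ρ * (((x / p : ℝ) : ℂ) ^ (1 - s) / (1 - s)))‖
      ≤ C * x ^ (-(1 / 4) : ℝ) := by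
    rw [norm_mul, norm_mul, hg, one_mul]
    calc ‖(p : ℂ) ^ (-s)‖ * ‖PS b (x / p) s - F s - ρ * (((x / p : ℝ) : ℂ) ^ (1 - s) / (1 - s))‖ ≤
        (p : ℝ) ^ (-(3 / 4) : ℝ) * (C * (x / p) ^ (-(1 / 4) : ℝ)) := by
          refine mul_le_mul (norm_p_le hp hs) h2 (norm_nonneg _) (by positivity)
      _ = C * x ^ (-(1 / 4) : ℝ) * (p : ℝ) ^ (-(1 / 2) : ℝ) := by
          rw [Real.div_rpow hx.le hp0.le]
          have : (p : ℝ) ^ (-(3 / 4) : ℝ) = (p : ℝ) ^ (-(1 / 2) : ℝ) * (p : ℝ) ^ (-(1 / 4) : ℝ) := by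
            rw [← Real.rpow_add hp0]; norm_num
          rw [this]
          have : (p : ℝ) ^ (-(1 / 4) : ℝ) ≠ 0 := (Real.rpow_pos_of_pos hp0 _).ne'
          field_simp
      _ ≤ C * x ^ (-(1 / 4) : ℝ) * 1 := by
          gcongr
          exact Real.rpow_le_one_of_one_le_of_nonpos hp1 (by norm_num)
      _ = _ := mul_one _
  calc _ ≤ C * x ^ (-(1 / 4) : ℝ) + C * x ^ (-(1 / 4) : ℝ) := (norm_sub_le _ _).trans (add_le_add h1 h5)
    _ = _ := by ring

theorem one_sub_ne {p : ℕ} (hp : p.Prime) {g : ℂ} (hg : ‖g‖ = 1) {s : ℂ} (hs : 0 < s.re) :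
    1 - g * (p : ℂ) ^ (-s) ≠ 0 := by
  intro h
  have h1 : g * (p : ℂ) ^ (-s) = 1 := by linear_combination -h
  have h2 := congrArg norm h1
  rw [norm_mul, hg, one_mul, norm_one] at h2
  have hp0 : (0 : ℝ) < p := by exact_mod_cast hp.pos
  have : (p : ℂ) = ((p : ℝ) : ℂ) := by simp
  rw [this, Complex.norm_cpow_eq_rpow_re_of_pos hp0] at h2
  have h3 : (p : ℝ) ^ (-s).re < 1 := by
    refine Real.rpow_lt_one_of_one_lt_of_neg (by exact_mod_cast hp.one_lt) ?_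
    simpa using hs
  linarith

/-- adding a prime with a new value -/
theorem Good.add {R r : ℝ} (hr : 0 < r) {b : ℕ → ℂ} {F : ℂ → ℂ} {ρ : ℂ} {p : ℕ}
    (h : Good R r (fun n => if p ∣ n then 0 else b n) F ρ)
    (hp : p.Prime) {g : ℂ} (hg : ‖g‖ = 1) (hb : ∀ m, 1 ≤ m → b (p * m) = g * b m) :
    Good R r b (fun s => F s / (1 - g * (p : ℂ) ^ (-s))) (ρ / (1 - g / p)) := by
  obtain ⟨C, hC, h⟩ := h
  have hp0 : (0 : ℝ) < p := by exact_mod_cast hp.pos
  have hp2 : (2 : ℝ) ≤ p := by exact_mod_cast hp.two_le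
  have hp1 : (1 : ℝ) ≤ p := by linarith
  have hpc : (p : ℂ) ≠ 0 := by exact_mod_cast hp.ne_zero
  set ρ2 : ℂ := ρ / (1 - g / p) with hρ2
  have hgp : 1 - g / p ≠ 0 := by
    have := one_sub_ne hp hg (s := 1) (by simp)
    rwa [Complex.cpow_neg_one, ← div_eq_mul_inv] at this
  -- a bound for `F`
  set M : ℝ := 2 * C + ‖ρ‖ * (2 / r) with hM
  have hFb : ∀ s ∈ KK R r, ‖F s‖ ≤ M := by
    intro s hs
    have h1 := h s hs (1 / 2) (by norm_num)
    rw [PS_lt_one _ (by norm_num)] at h1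
    have hnr : r ≤ ‖1 - s‖ := by rw [norm_sub_rev]; exact hs.2.2.2
    have h2 : ‖(((1 / 2 : ℝ)) : ℂ) ^ (1 - s)‖ ≤ 2 := by
      rw [Complex.norm_cpow_eq_rpow_re_of_pos (by norm_num)]
      calc (1 / 2 : ℝ) ^ (1 - s).re ≤ (1 / 2 : ℝ) ^ (-1 : ℝ) := by
            refine Real.rpow_le_rpow_of_exponent_ge (by norm_num) (by norm_num) ?_
            simp; linarith [hs.2.1]
        _ = 2 := by rw [Real.rpow_neg_one]; norm_num
    have h3 : (1 / 2 : ℝ) ^ (-(1 / 4) : ℝ) ≤ 2 := by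
      calc (1 / 2 : ℝ) ^ (-(1 / 4) : ℝ) ≤ (1 / 2 : ℝ) ^ (-1 : ℝ) :=
            Real.rpow_le_rpow_of_exponent_ge (by norm_num) (by norm_num) (by norm_num)
        _ = 2 := by rw [Real.rpow_neg_one]; norm_num
    have h4 : ‖ρ * ((((1 / 2 : ℝ)) : ℂ) ^ (1 - s) / (1 - s))‖ ≤ ‖ρ‖ * (2 / r) := by
      rw [norm_mul, norm_div]
      gcongr
    have h5 : F s = -(0 - F s - ρ * ((((1 / 2 : ℝ)) : ℂ) ^ (1 - s) / (1 - s))) -
        ρ * ((((1 / 2 : ℝ)) : ℂ) ^ (1 - s) / (1 - s)) := by ring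
    rw [h5]
    refine (norm_sub_le _ _).trans ?_
    rw [norm_neg]
    have h6 : C * (1 / 2 : ℝ) ^ (-(1 / 4) : ℝ) ≤ 2 * C := by nlinarith
    rw [hM]
    linarith
  have hM0 : 0 ≤ M := by rw [hM]; positivity
  -- lower bound for the denominator
  set δ : ℝ := 1 - (2 : ℝ) ^ (-(3 / 4) : ℝ) with hδ
  have hδ0 : 0 < δ := by
    rw [hδ]
    have : (2 : ℝ) ^ (-(3 / 4) : ℝ) < 1 := Real.rpow_lt_one_of_one_lt_of_neg (by norm_num) (by norm_num)
    linarith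
  have hden : ∀ s ∈ KK R r, δ ≤ ‖1 - g * (p : ℂ) ^ (-s)‖ := by
    intro s hs
    have h1 : ‖g * (p : ℂ) ^ (-s)‖ ≤ (2 : ℝ) ^ (-(3 / 4) : ℝ) := by
      rw [norm_mul, hg, one_mul]
      exact (norm_p_le hp hs).trans (Real.rpow_le_rpow_of_nonpos (by norm_num) hp2 (by norm_num))
    have h2 := norm_sub_norm_le (1 : ℂ) (g * (p : ℂ) ^ (-s))
    rw [norm_one] at h2
    linarith
  set η : ℝ := 1 - (2 : ℝ) ^ (-(1 / 2) : ℝ) with hη
  have hη0 : 0 < η := by
    rw [hη]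
    have : (2 : ℝ) ^ (-(1 / 2) : ℝ) < 1 := Real.rpow_lt_one_of_one_lt_of_neg (by norm_num) (by norm_num)
    linarith
  set C2 : ℝ := M / δ + ‖ρ2‖ / r + C / η with hC2
  have hC20 : 0 ≤ C2 := by positivity
  refine ⟨C2, hC20, ?_⟩
  intro s hs
  have hs1 : s ≠ 1 := by
    rintro rfl
    have := hs.2.2.2
    simp at this
    linarith
  have hnr : r ≤ ‖1 - s‖ := by rw [norm_sub_rev]; exact hs.2.2.2
  have hdn := one_sub_ne hp hg (s := s) (by linarith [hs.1])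
  have key : ∀ n : ℕ, ∀ x : ℝ, 0 < x → x < (p : ℝ) ^ n →
      ‖PS b x s - F s / (1 - g * (p : ℂ) ^ (-s)) - ρ2 * ((x : ℂ) ^ (1 - s) / (1 - s))‖ ≤
        C2 * x ^ (-(1 / 4) : ℝ) := by
    intro n
    induction n with
    | zero =>
      intro x hx hx1
      rw [pow_zero] at hx1
      rw [PS_lt_one _ hx1]
      have hxp : 1 ≤ x ^ (-(1 / 4) : ℝ) :=
        Real.one_le_rpow_of_pos_of_le_one_of_nonpos hx hx1.le (by norm_num)
      have h1 : ‖(x : ℂ) ^ (1 - s)‖ ≤ x ^ (-(1 / 4) : ℝ) := by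
        rw [Complex.norm_cpow_eq_rpow_re_of_pos hx]
        refine Real.rpow_le_rpow_of_exponent_ge hx hx1.le ?_
        simp; linarith [hs.2.1]
      have h2 : ‖ρ2 * ((x : ℂ) ^ (1 - s) / (1 - s))‖ ≤ ‖ρ2‖ / r * x ^ (-(1 / 4) : ℝ) := by
        rw [norm_mul, norm_div ((x : ℂ) ^ (1 - s)) (1 - s)]
        calc ‖ρ2‖ * (‖(x : ℂ) ^ (1 - s)‖ / ‖1 - s‖) ≤ ‖ρ2‖ * (x ^ (-(1 / 4) : ℝ) / r) := by gcongr
          _ = _ := by ring
      have h3 : ‖F s / (1 - g * (p : ℂ) ^ (-s))‖ ≤ M / δ * x ^ (-(1 / 4) : ℝ) := by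
        rw [norm_div]
        calc ‖F s‖ / ‖1 - g * (p : ℂ) ^ (-s)‖ ≤ M / δ := by
              gcongr
              · exact hFb s hs
              · exact hden s hs
          _ = M / δ * 1 := (mul_one _).symm
          _ ≤ _ := by gcongr
      calc _ ≤ ‖0 - F s / (1 - g * (p : ℂ) ^ (-s))‖ + ‖ρ2 * ((x : ℂ) ^ (1 - s) / (1 - s))‖ :=
            norm_sub_le _ _
        _ ≤ M / δ * x ^ (-(1 / 4) : ℝ) + ‖ρ2‖ / r * x ^ (-(1 / 4) : ℝ) := by
            rw [zero_sub, norm_neg]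
            exact add_le_add h3 h2
        _ ≤ _ := by
            rw [hC2]
            have : 0 ≤ C / η * x ^ (-(1 / 4) : ℝ) := by positivity
            linarith
    | succ n ih =>
      intro x hx hxn
      have h1 := ih (x / p) (by positivity) (by
        rw [div_lt_iff₀ hp0]
        calc x < (p : ℝ) ^ (n + 1) := hxn
          _ = _ := pow_succ _ _)
      have h2 := h s hs x hx
      have h3 : PS b x s - F s / (1 - g * (p : ℂ) ^ (-s)) - ρ2 * ((x : ℂ) ^ (1 - s) / (1 - s)) =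
          (PS (fun n => if p ∣ n then 0 else b n) x s - F s - ρ * ((x : ℂ) ^ (1 - s) / (1 - s))) +
          g * (p : ℂ) ^ (-s) * (PS b (x / p) s - F s / (1 - g * (p : ℂ) ^ (-s)) -
            ρ2 * (((x / p : ℝ) : ℂ) ^ (1 - s) / (1 - s))) := by
        have h4 := main_term hp hx s
        have h5 : ρ = ρ2 * (1 - g / p) := by rw [hρ2, div_mul_cancel₀ _ hgp]
        have h6 : F s = F s / (1 - g * (p : ℂ) ^ (-s)) * (1 - g * (p : ℂ) ^ (-s)) :=
          (div_mul_cancel₀ _ hdn).symm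
        rw [PS_split hp hb x s]
        set FF := F s / (1 - g * (p : ℂ) ^ (-s)) with hFF
        rw [h6, h5]
        linear_combination (g * ρ2 / (1 - s)) * h4
      rw [h3]
      have h5 : ‖g * (p : ℂ) ^ (-s) * (PS b (x / p) s - F s / (1 - g * (p : ℂ) ^ (-s)) -
            ρ2 * (((x / p : ℝ) : ℂ) ^ (1 - s) / (1 - s)))‖
          ≤ C2 * x ^ (-(1 / 4) : ℝ) * (1 - η) := by
        rw [norm_mul, norm_mul, hg, one_mul]
        calc ‖(p : ℂ) ^ (-s)‖ * ‖PS b (x / p) s - F s / (1 - g * (p : ℂ) ^ (-s)) -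
              ρ2 * (((x / p : ℝ) : ℂ) ^ (1 - s) / (1 - s))‖ ≤
            (p : ℝ) ^ (-(3 / 4) : ℝ) * (C2 * (x / p) ^ (-(1 / 4) : ℝ)) := by
              refine mul_le_mul (norm_p_le hp hs) h1 (norm_nonneg _) (by positivity)
          _ = C2 * x ^ (-(1 / 4) : ℝ) * (p : ℝ) ^ (-(1 / 2) : ℝ) := by
              rw [Real.div_rpow hx.le hp0.le]
              have : (p : ℝ) ^ (-(3 / 4) : ℝ) = (p : ℝ) ^ (-(1 / 2) : ℝ) * (p : ℝ) ^ (-(1 / 4) : ℝ) := by
                rw [← Real.rpow_add hp0]; norm_num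
              rw [this]
              have : (p : ℝ) ^ (-(1 / 4) : ℝ) ≠ 0 := (Real.rpow_pos_of_pos hp0 _).ne'
              field_simp
          _ ≤ C2 * x ^ (-(1 / 4) : ℝ) * (1 - η) := by
              gcongr
              rw [hη, sub_sub_cancel]
              exact Real.rpow_le_rpow_of_nonpos (by norm_num) hp2 (by norm_num)
      have h6 : C ≤ C2 * η := by
        rw [hC2]
        have : C = C / η * η := by field_simp
        have h7 : 0 ≤ (M / δ + ‖ρ2‖ / r) * η := by positivity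
        nlinarith
      have h8 : 0 < x ^ (-(1 / 4) : ℝ) := by positivity
      calc _ ≤ C * x ^ (-(1 / 4) : ℝ) + C2 * x ^ (-(1 / 4) : ℝ) * (1 - η) :=
            (norm_add_le _ _).trans (add_le_add h2 h5)
        _ ≤ C2 * η * x ^ (-(1 / 4) : ℝ) + C2 * x ^ (-(1 / 4) : ℝ) * (1 - η) := by gcongr
        _ = _ := by ring
  intro x hx
  obtain ⟨n, hn⟩ := pow_unbounded_of_one_lt x (show (1 : ℝ) < p by linarith)
  exact key n x hx hn

end

end Pool.Agent.N800.TP
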