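import Mathlib
import Pool.Agent.N800.TP.A

/-!
The twisted multiplicative function and its Dirichlet series.
-/

set_option autoImplicit false

open Filter Topology Complex

namespace Pool.Agent.N800.TP

noncomputable section

/-- indicator of the integers without prime factor in `T` -/
def aT (T : Finset ℕ) (n : ℕ) : ℂ := if ∀ q ∈ T, ¬ q ∣ n then 1 else 0

/-- the same with the value `g` at the prime `p` -/
def bb (T : Finset ℕ) (p : ℕ) (g : ℂ) (n : ℕ) : ℂ := aT T n * g ^ (n.factorization p)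

theorem Good.congr {R r : ℝ} {a a' : ℕ → ℂ} {F F' : ℂ → ℂ} {ρ ρ' : ℂ} (h : Good R r a F ρ)
    (h1 : a = a') (h2 : F = F') (h3 : ρ = ρ') : Good R r a' F' ρ' := by
  subst h1; subst h2; subst h3; exact h

theorem aT_insert {T : Finset ℕ} {p : ℕ} :
    aT (insert p T) = fun n => if p ∣ n then 0 else aT T n := by
  funext n
  unfold aT
  by_cases h : p ∣ n
  · rw [if_pos h, if_neg]
    intro h1
    exact h1 p (Finset.mem_insert_self _ _) h
  · rw [if_neg h]
    congr 1
    simp [h]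

theorem aT_mul {T : Finset ℕ} (hT : ∀ q ∈ T, q.Prime) {p : ℕ} (hp : p.Prime) (hpT : p ∉ T) (m : ℕ) :
    aT T (p * m) = aT T m := by
  unfold aT
  congr 1
  apply propext
  refine forall₂_congr fun q hq => ?_
  rw [(hT q hq).dvd_mul]
  have : ¬ q ∣ p := by
    intro h
    rw [Nat.prime_dvd_prime_iff_eq (hT q hq) hp] at h
    subst h
    exact hpT hq
  simp [this]

theorem good_T {R r : ℝ} (hr : 0 < r) (T : Finset ℕ) (hT : ∀ q ∈ T, q.Prime) :
    Good R r (aT T) (fun s => riemannZeta s * ∏ q ∈ T, (1 - (q : ℂ) ^ (-s)))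
      (∏ q ∈ T, (1 - 1 / (q : ℂ))) := by
  induction T using Finset.induction_on with
  | empty =>
    refine (good_one hr).congr ?_ ?_ ?_
    · funext n; simp [aT]
    · funext s; simp
    · simp
  | insert p T hpT ih =>
    have hp : p.Prime := hT p (Finset.mem_insert_self _ _)
    have hT' : ∀ q ∈ T, q.Prime := fun q hq => hT q (Finset.mem_insert_of_mem hq)
    have h1 := (ih hT').remove hp (g := 1) (by simp) (fun m _ => by rw [aT_mul hT' hp hpT, one_mul])
    refine h1.congr ?_ ?_ ?_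
    · exact aT_insert.symm
    · funext s
      rw [Finset.prod_insert hpT]
      ring
    · rw [Finset.prod_insert hpT]
      ring

theorem bb_mul {T : Finset ℕ} (hT : ∀ q ∈ T, q.Prime) {p : ℕ} (hp : p.Prime) (hpT : p ∉ T) (g : ℂ)
    (m : ℕ) (hm : 1 ≤ m) : bb T p g (p * m) = g * bb T p g m := by
  unfold bb
  rw [aT_mul hT hp hpT, Nat.factorization_mul hp.ne_zero (by omega)]
  simp only [Finsupp.coe_add, Pi.add_apply, hp.factorization_self]
  ring

theorem good_bb {R r : ℝ} (hr : 0 < r) (T : Finset ℕ) (hT : ∀ q ∈ T, q.Prime) {p : ℕ}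
    (hp : p.Prime) (hpT : p ∉ T) {g : ℂ} (hg : ‖g‖ = 1) :
    Good R r (bb T p g)
      (fun s => riemannZeta s * (∏ q ∈ insert p T, (1 - (q : ℂ) ^ (-s))) / (1 - g * (p : ℂ) ^ (-s)))
      ((∏ q ∈ insert p T, (1 - 1 / (q : ℂ))) / (1 - g / p)) := by
  refine Good.add hr ?_ hp hg (bb_mul hT hp hpT g)
  refine (good_T hr (insert p T) ?_).congr ?_ rfl rfl
  · intro q hq
    rcases Finset.mem_insert.1 hq with rfl | hq
    · exact hp
    · exact hT q hq
  · rw [aT_insert]
    funext n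
    by_cases h : p ∣ n
    · rw [if_pos h, if_pos h]
    · rw [if_neg h, if_neg h]
      unfold bb
      rw [Nat.factorization_eq_zero_of_not_dvd h, pow_zero, mul_one]

/-- `|1 - g q^(-1-iv)|^2` for a real number `g` -/
theorem fac_real (q : ℕ) (hq : q.Prime) (v : ℝ) :
    ‖1 - (q : ℂ) ^ (-(1 + v * I))‖ ^ 2 =
      (1 - Real.cos (v * Real.log q) / q) ^ 2 + (Real.sin (v * Real.log q) / q) ^ 2 := by
  have hq0 : (0 : ℝ) < q := by exact_mod_cast hq.pos
  have hqc : (q : ℂ) ≠ 0 := by exact_mod_cast hq.ne_zero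
  have h1 : (q : ℂ) ^ (-(1 + v * I)) = (((1 : ℝ) / q : ℝ) : ℂ) *
      (((Real.cos (v * Real.log q) : ℝ) : ℂ) - ((Real.sin (v * Real.log q) : ℝ) : ℂ) * I) := by
    rw [neg_add, Complex.cpow_add _ _ hqc, Complex.cpow_neg_one]
    congr 1
    · push_cast; rw [one_div]
    · rw [Complex.cpow_def_of_ne_zero hqc]
      have h2 : Complex.log (q : ℂ) * -(v * I) = ((-(v * Real.log q) : ℝ) : ℂ) * I := by
        have : Complex.log (q : ℂ) = ((Real.log q : ℝ) : ℂ) := by
          rw [Complex.ofReal_log hq0.le]; simp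
        rw [this]; push_cast; ring
      rw [h2, Complex.exp_mul_I, ← Complex.ofReal_cos, ← Complex.ofReal_sin, Real.cos_neg,
        Real.sin_neg]
      push_cast
      ring
  rw [h1]
  generalize Real.cos (v * Real.log q) = a
  generalize Real.sin (v * Real.log q) = b
  rw [← Complex.normSq_eq_norm_sq, Complex.normSq_apply]
  simp
  ring

/-- the factor with `g = -i` -/
theorem fac_twist (q : ℕ) (hq : q.Prime) (v : ℝ) :
    ‖1 - (-I) * (q : ℂ) ^ (-(1 + v * I))‖ ^ 2 =
      (1 + Real.sin (v * Real.log q) / q) ^ 2 + (Real.cos (v * Real.log q) / q) ^ 2 := by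
  have hq0 : (0 : ℝ) < q := by exact_mod_cast hq.pos
  have hqc : (q : ℂ) ≠ 0 := by exact_mod_cast hq.ne_zero
  have h1 : (q : ℂ) ^ (-(1 + v * I)) = (((1 : ℝ) / q : ℝ) : ℂ) *
      (((Real.cos (v * Real.log q) : ℝ) : ℂ) - ((Real.sin (v * Real.log q) : ℝ) : ℂ) * I) := by
    rw [neg_add, Complex.cpow_add _ _ hqc, Complex.cpow_neg_one]
    congr 1
    · push_cast; rw [one_div]
    · rw [Complex.cpow_def_of_ne_zero hqc]
      have h2 : Complex.log (q : ℂ) * -(v * I) = ((-(v * Real.log q) : ℝ) : ℂ) * I := by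
        have : Complex.log (q : ℂ) = ((Real.log q : ℝ) : ℂ) := by
          rw [Complex.ofReal_log hq0.le]; simp
        rw [this]; push_cast; ring
      rw [h2, Complex.exp_mul_I, ← Complex.ofReal_cos, ← Complex.ofReal_sin, Real.cos_neg,
        Real.sin_neg]
      push_cast
      ring
  rw [h1]
  generalize Real.cos (v * Real.log q) = a
  generalize Real.sin (v * Real.log q) = b
  rw [← Complex.normSq_eq_norm_sq, Complex.normSq_apply]
  simp
  ring

theorem deriv_fac_real (q : ℕ) (hq : q.Prime) :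
    HasDerivAt (fun v : ℝ => ‖1 - (q : ℂ) ^ (-(1 + v * I))‖ ^ 2) 0 0 := by
  have h1 : (fun v : ℝ => ‖1 - (q : ℂ) ^ (-(1 + v * I))‖ ^ 2) = fun v : ℝ =>
      (1 - Real.cos (v * Real.log q) / q) ^ 2 + (Real.sin (v * Real.log q) / q) ^ 2 := by
    funext v; exact fac_real q hq v
  rw [h1]
  have hl : HasDerivAt (fun v : ℝ => v * Real.log q) (Real.log q) 0 := by
    simpa using (hasDerivAt_id (0 : ℝ)).mul_const (Real.log q)
  have hc := (hl.cos.div_const (q : ℝ)).const_sub 1
  have hs := hl.sin.div_const (q : ℝ)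
  have := (hc.pow 2).add (hs.pow 2)
  refine HasDerivAt.congr_deriv this ?_
  simp

theorem deriv_fac_twist (q : ℕ) (hq : q.Prime) :
    HasDerivAt (fun v : ℝ => ‖1 - (-I) * (q : ℂ) ^ (-(1 + v * I))‖ ^ 2) (2 * Real.log q / q) 0 := by
  have h1 : (fun v : ℝ => ‖1 - (-I) * (q : ℂ) ^ (-(1 + v * I))‖ ^ 2) = fun v : ℝ =>
      (1 + Real.sin (v * Real.log q) / q) ^ 2 + (Real.cos (v * Real.log q) / q) ^ 2 := by
    funext v; exact fac_twist q hq v
  rw [h1]
  have hl : HasDerivAt (fun v : ℝ => v * Real.log q) (Real.log q) 0 := by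
    simpa using (hasDerivAt_id (0 : ℝ)).mul_const (Real.log q)
  have hc := hl.cos.div_const (q : ℝ)
  have hs := (hl.sin.div_const (q : ℝ)).const_add 1
  have := (hs.pow 2).add (hc.pow 2)
  refine HasDerivAt.congr_deriv this ?_
  simp
  ring

/-- `i v ζ(1+iv)`, extended by `1` -/
def zv (v : ℝ) : ℂ := if v = 0 then 1 else v * I * riemannZeta (1 + v * I)

theorem deriv_zv : HasDerivAt (fun v : ℝ => ‖zv v‖ ^ 2) 0 0 := by
  rw [hasDerivAt_iff_tendsto_slope]
  -- `c(v) = ζ(1+iv) - 1/(iv)`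
  set c : ℝ → ℂ := fun v => riemannZeta (1 + v * I) - 1 / ((1 + v * I) - 1) with hc
  have h1 : Tendsto c (𝓝[≠] 0) (𝓝 ((Real.eulerMascheroniConstant : ℝ) : ℂ)) := by
    refine tendsto_riemannZeta_sub_one_div.comp ?_
    refine tendsto_nhdsWithin_iff.2 ⟨?_, ?_⟩
    · have : Continuous fun v : ℝ => (1 : ℂ) + v * I := by fun_prop
      have h2 := this.tendsto 0
      simp only [Complex.ofReal_zero, zero_mul, add_zero] at h2
      exact h2.mono_left nhdsWithin_le_nhds
    · filter_upwards [self_mem_nhdsWithin] with v hv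
      simp only [Set.mem_compl_iff, Set.mem_singleton_iff]
      intro h
      apply hv
      have := congrArg Complex.im h
      simpa using this
  have h2 : Tendsto (fun v : ℝ => -2 * (c v).im + v * Complex.normSq (c v)) (𝓝[≠] 0) (𝓝 0) := by
    have h3 : Tendsto (fun v : ℝ => (c v).im) (𝓝[≠] 0) (𝓝 0) := by
      have := (Complex.continuous_im.tendsto _).comp h1
      rw [Complex.ofReal_im] at this
      exact this
    have h4 : Tendsto (fun v : ℝ => Complex.normSq (c v)) (𝓝[≠] 0)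
        (𝓝 (Complex.normSq ((Real.eulerMascheroniConstant : ℝ) : ℂ))) :=
      (Complex.continuous_normSq.tendsto _).comp h1
    have h5 : Tendsto (fun v : ℝ => v) (𝓝[≠] 0) (𝓝 0) := tendsto_id.mono_left nhdsWithin_le_nhds
    have := (h3.const_mul (-2)).add (h5.mul h4)
    simpa using this
  refine h2.congr' ?_
  filter_upwards [self_mem_nhdsWithin] with v hv
  have hv0 : v ≠ 0 := hv
  have h3 : zv v = 1 + v * I * c v := by
    rw [zv, if_neg hv0, hc]
    have hvI : (v : ℂ) * I ≠ 0 := mul_ne_zero (Complex.ofReal_ne_zero.2 hv0) I_ne_zero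
    simp only [add_sub_cancel_left]
    rw [mul_sub, mul_one_div_cancel hvI]
    ring
  have h4 : zv 0 = 1 := by rw [zv, if_pos rfl]
  rw [slope_def_field, h4, h3, ← Complex.normSq_eq_norm_sq]
  simp only [norm_one, one_pow, sub_zero]
  rw [Complex.normSq_apply, Complex.normSq_apply]
  simp
  field_simp
  ring

/-- the key inequality -/
theorem exists_v (T : Finset ℕ) (hT : ∀ q ∈ T, q.Prime) {p : ℕ} (hp : p.Prime) :
    ∃ v : ℝ, 0 < v ∧
      ‖(v : ℂ) * (riemannZeta (1 + v * I) * (∏ q ∈ T, (1 - (q : ℂ) ^ (-(1 + v * I)))) /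
        (1 - (-I) * (p : ℂ) ^ (-(1 + v * I))))‖ <
      ‖(∏ q ∈ T, (1 - 1 / (q : ℂ))) / (1 - (-I) / p)‖ := by
  set P : ℝ → ℝ := fun v => ‖zv v‖ ^ 2 * ∏ q ∈ T, ‖1 - (q : ℂ) ^ (-(1 + v * I))‖ ^ 2 with hP
  set D : ℝ → ℝ := fun v => ‖1 - (-I) * (p : ℂ) ^ (-(1 + v * I))‖ ^ 2 with hD
  have hP' : HasDerivAt P 0 0 := by
    have h1 : ∀ T : Finset ℕ, (∀ q ∈ T, q.Prime) →
        HasDerivAt (fun v : ℝ => ∏ q ∈ T, ‖1 - (q : ℂ) ^ (-(1 + v * I))‖ ^ 2) 0 0 := by
      intro T hT
      induction T using Finset.induction_on with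
      | empty => simpa using hasDerivAt_const (0 : ℝ) (1 : ℝ)
      | insert q T hqT ih =>
        have h2 := ih fun q' hq' => hT q' (Finset.mem_insert_of_mem hq')
        have h3 := deriv_fac_real q (hT q (Finset.mem_insert_self _ _))
        have h4 := h3.mul h2
        simp only [Finset.prod_insert hqT]
        refine HasDerivAt.congr_deriv h4 ?_
        simp
    have h2 := deriv_zv.mul (h1 T hT)
    refine HasDerivAt.congr_deriv h2 ?_
    simp
  have hD' := deriv_fac_twist p hp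
  have hD0 : 0 < D 0 := by
    have : 1 - (-I) * (p : ℂ) ^ (-(1 + ((0 : ℝ) : ℂ) * I)) ≠ 0 :=
      one_sub_ne hp (by simp) (by simp)
    rw [hD]
    positivity
  have hp0 : (0 : ℝ) < p := by exact_mod_cast hp.pos
  have hP0 : 0 < P 0 := by
    rw [hP]
    have h1 : ∀ q ∈ T, 0 < ‖1 - (q : ℂ) ^ (-(1 + ((0 : ℝ) : ℂ) * I))‖ ^ 2 := by
      intro q hq
      have := one_sub_ne (hT q hq) (g := 1) (by simp) (s := 1 + ((0 : ℝ) : ℂ) * I) (by simp)
      rw [one_mul] at this
      positivity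
    have h2 := Finset.prod_pos h1
    have h3 : zv 0 = 1 := by rw [zv, if_pos rfl]
    simp only [h3, norm_one, one_pow, one_mul]
    exact h2
  have hG : HasDerivAt (fun v => P v / D v) ((0 * D 0 - P 0 * (2 * Real.log p / p)) / D 0 ^ 2) 0 :=
    hP'.div hD' hD0.ne'
  have hneg : (0 * D 0 - P 0 * (2 * Real.log p / p)) / D 0 ^ 2 < 0 := by
    have h1 : 0 < Real.log p := Real.log_pos (by exact_mod_cast hp.one_lt)
    have h2 : 0 < P 0 * (2 * Real.log p / p) := by positivity
    apply div_neg_of_neg_of_pos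
    · linarith
    · positivity
  rw [hasDerivAt_iff_tendsto_slope] at hG
  have h1 := hG.eventually (gt_mem_nhds hneg)
  have h2 : ∀ᶠ v : ℝ in 𝓝[>] 0, slope (fun v => P v / D v) 0 v < 0 :=
    (nhdsWithin_mono 0 fun x (hx : 0 < x) => hx.ne') h1
  obtain ⟨v, hv, hv0⟩ := (h2.and self_mem_nhdsWithin).exists
  have hv0' : 0 < v := hv0
  refine ⟨v, hv0', ?_⟩
  rw [slope_def_field, sub_zero] at hv
  have h3 : P v / D v < P 0 / D 0 := by
    have := (div_neg_iff.1 hv)
    rcases this with h | h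
    · linarith [h.2]
    · linarith [h.1]
  have h4 : ‖(v : ℂ) * (riemannZeta (1 + v * I) * (∏ q ∈ T, (1 - (q : ℂ) ^ (-(1 + v * I)))) /
        (1 - (-I) * (p : ℂ) ^ (-(1 + v * I))))‖ ^ 2 = P v / D v := by
    rw [hP, hD]
    simp only [zv, if_neg hv0'.ne', norm_mul, norm_div, norm_prod, mul_pow, div_pow,
      Finset.prod_pow, norm_I, one_pow, mul_one]
    ring
  have h5 : ‖(∏ q ∈ T, (1 - 1 / (q : ℂ))) / (1 - (-I) / p)‖ ^ 2 = P 0 / D 0 := by
    rw [hP, hD]
    have e1 : ∀ q : ℕ, (q : ℂ) ^ (-(1 + ((0 : ℝ) : ℂ) * I)) = 1 / (q : ℂ) := by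
      intro q
      simp [Complex.cpow_neg_one]
    simp only [e1, zv, if_true, norm_one, one_pow, one_mul, norm_div, norm_prod, div_pow,
      Finset.prod_pow]
    congr 3
    ring_nf
  refine lt_of_pow_lt_pow_left₀ 2 (norm_nonneg _) ?_
  rw [h4, h5]
  exact h3

end

end Pool.Agent.N800.TP
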