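import Mathlib
import Pool.Agent.TH109.CG.Kron

/-!
Kronecker's theorem for the logarithms of the primes, twisted by a Dirichlet character.
-/

set_option autoImplicit false

open Filter Topology Complex

namespace Pool.Agent.N800.TP

noncomputable section

/-- primes up to `N` -/
abbrev PI (N : ℕ) : Type := {p : ℕ // p ∈ (Finset.range (N + 1)).filter Nat.Prime}

theorem PI_prime {N : ℕ} (p : PI N) : (p : ℕ).Prime := (Finset.mem_filter.1 p.2).2

theorem val_prod (N : ℕ) (n : PI N → ℤ) (q : PI N) (s : Finset (PI N)) :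
    padicValRat q (∏ p ∈ s, ((p : ℕ) : ℚ) ^ (n p)) = ∑ p ∈ s, if p = q then n p else 0 := by
  have hq := PI_prime q
  have : Fact (q : ℕ).Prime := ⟨hq⟩
  induction s using Finset.induction_on with
  | empty => simp
  | insert a s ha ih =>
    rw [Finset.prod_insert ha, Finset.sum_insert ha]
    have ha0 : ((a : ℕ) : ℚ) ≠ 0 := by exact_mod_cast (PI_prime a).ne_zero
    have hs0 : ∏ p ∈ s, ((p : ℕ) : ℚ) ^ (n p) ≠ 0 := by
      refine Finset.prod_ne_zero_iff.2 fun p _ => zpow_ne_zero _ ?_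
      exact_mod_cast (PI_prime p).ne_zero
    rw [padicValRat.mul (zpow_ne_zero _ ha0) hs0, ih]
    congr 1
    rw [padicValRat.zpow]
    by_cases h : a = q
    · subst h
      rw [if_pos rfl, padicValRat.of_nat, padicValNat_self]
      simp
    · rw [if_neg h, padicValRat.of_nat]
      have : padicValNat q a = 0 := by
        apply padicValNat.eq_zero_of_not_dvd
        intro h1
        rw [Nat.prime_dvd_prime_iff_eq hq (PI_prime a)] at h1
        exact h (Subtype.ext h1.symm)
      rw [this]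
      simp

theorem logs_indep (N : ℕ) (n : PI N → ℤ)
    (h : ∑ p, (n p : ℝ) * (-Real.log (p : ℕ) / (2 * Real.pi)) = 0) : n = 0 := by
  have h1 : ∑ p : PI N, (n p : ℝ) * Real.log (p : ℕ) = 0 := by
    have h2 : ∑ p : PI N, (n p : ℝ) * (-Real.log (p : ℕ) / (2 * Real.pi)) =
        (∑ p : PI N, (n p : ℝ) * Real.log (p : ℕ)) * (-1 / (2 * Real.pi)) := by
      rw [Finset.sum_mul]
      refine Finset.sum_congr rfl fun p _ => ?_
      ring
    rw [h2] at h
    rcases mul_eq_zero.1 h with h | h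
    · exact h
    · exfalso
      have : (-1 / (2 * Real.pi)) ≠ 0 := by
        have := Real.pi_pos
        positivity
      exact this h
  set r : ℚ := ∏ p : PI N, ((p : ℕ) : ℚ) ^ (n p) with hr
  have hpos : ∀ p : PI N, (0 : ℝ) < ((p : ℕ) : ℝ) := fun p => by exact_mod_cast (PI_prime p).pos
  have h2 : Real.log (r : ℝ) = 0 := by
    rw [hr]
    push_cast
    rw [Real.log_prod fun p _ => (zpow_pos (hpos p) _).ne']
    rw [← h1]
    refine Finset.sum_congr rfl fun p _ => ?_
    rw [Real.log_zpow]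
  have h3 : (0 : ℝ) < (r : ℝ) := by
    rw [hr]
    push_cast
    exact Finset.prod_pos fun p _ => zpow_pos (hpos p) _
  have h4 : (r : ℝ) = 1 := Real.eq_one_of_pos_of_log_eq_zero h3 h2
  have h5 : r = 1 := by exact_mod_cast h4
  funext q
  have h6 := val_prod N n q Finset.univ
  rw [← hr, h5, padicValRat.one] at h6
  simp only [Finset.sum_ite_eq', Finset.mem_univ, if_true] at h6
  simp [← h6]

/-- the character of the torus attached to `n` -/
def Th {N : ℕ} (x : UnitAddTorus (PI N)) (n : ℕ) : ℂ := ∏ p : PI N, (fourier 1 (x p) : ℂ) ^ (n.factorization p)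

theorem Th_one {N : ℕ} (x : UnitAddTorus (PI N)) : Th x 1 = 1 := by
  simp [Th]

theorem Th_mul {N : ℕ} (x : UnitAddTorus (PI N)) {a b : ℕ} (ha : a ≠ 0) (hb : b ≠ 0) :
    Th x (a * b) = Th x a * Th x b := by
  unfold Th
  rw [← Finset.prod_mul_distrib]
  refine Finset.prod_congr rfl fun p _ => ?_
  rw [Nat.factorization_mul ha hb, Finsupp.coe_add, Pi.add_apply, pow_add]

theorem Th_prime {N : ℕ} (x : UnitAddTorus (PI N)) (q : PI N) : Th x q = fourier 1 (x q) := by
  unfold Th
  rw [Finset.prod_eq_single q]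
  · rw [(PI_prime q).factorization_self, pow_one]
  · intro p _ hpq
    have : ((q : ℕ).factorization p) = 0 := by
      apply Nat.factorization_eq_zero_of_not_dvd
      intro h1
      rw [Nat.prime_dvd_prime_iff_eq (PI_prime p) (PI_prime q)] at h1
      exact hpq (Subtype.ext h1)
    rw [this, pow_zero]
  · simp

theorem Th_cont {N : ℕ} (n : ℕ) : Continuous fun x : UnitAddTorus (PI N) => Th x n := by
  unfold Th
  refine continuous_finsetProd _ fun p _ => Continuous.pow ?_ _
  exact (fourier 1).continuous.comp (continuous_apply p)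

/-- the line -/
def lin (N : ℕ) (p : PI N) : ℝ := -Real.log (p : ℕ) / (2 * Real.pi)

theorem Th_line {N : ℕ} (t : ℝ) (n : ℕ) : 1 ≤ n → n ≤ N →
    Th (Pool.Agent.TH109.CG.ln (lin N) t) n = (n : ℂ) ^ (-(t * I)) := by
  induction n using induction_on_primes with
  | zero => intro h; omega
  | one => intro _ _; rw [Th_one]; simp
  | prime_mul p a hp ih =>
    intro h1 h2
    have ha : a ≠ 0 := by rintro rfl; simp at h1
    have hp1 : 1 ≤ p := hp.one_lt.le
    have ha1 : 1 ≤ a := Nat.pos_of_ne_zero ha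
    have haN : a ≤ N := le_trans (Nat.le_mul_of_pos_left a hp.pos) h2
    have hpN : p ≤ N := le_trans (Nat.le_mul_of_pos_right p ha1) h2
    rw [Th_mul _ hp.ne_zero ha, ih ha1 haN]
    have hmem : p ∈ (Finset.range (N + 1)).filter Nat.Prime :=
      Finset.mem_filter.2 ⟨Finset.mem_range.2 (by omega), hp⟩
    have h3 := Th_prime (Pool.Agent.TH109.CG.ln (lin N) t) (⟨p, hmem⟩ : PI N)
    have h4 : (fourier 1 (Pool.Agent.TH109.CG.ln (lin N) t ⟨p, hmem⟩) : ℂ) = (p : ℂ) ^ (-(t * I)) := by
      show (fourier 1 (((t * lin N ⟨p, hmem⟩ : ℝ)) : UnitAddCircle) : ℂ) = _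
      rw [fourier_coe_apply]
      have hpc : (p : ℂ) ≠ 0 := by exact_mod_cast hp.ne_zero
      rw [Complex.cpow_def_of_ne_zero hpc]
      congr 1
      have h5 : Complex.log (p : ℂ) = ((Real.log p : ℝ) : ℂ) := by
        rw [Complex.ofReal_log (by positivity)]; simp
      rw [h5]
      unfold lin
      have hpi : (Real.pi : ℂ) ≠ 0 := by exact_mod_cast Real.pi_ne_zero
      push_cast
      field_simp
    change Th _ p = _ at h3
    rw [h3, h4]
    push_cast
    rw [Complex.natCast_mul_natCast_cpow]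

theorem exists_angle (z : ℂ) (hz : ‖z‖ = 1) : ∃ x : UnitAddCircle, (fourier 1 x : ℂ) = z := by
  refine ⟨((Complex.arg z / (2 * Real.pi) : ℝ) : UnitAddCircle), ?_⟩
  rw [fourier_coe_apply]
  have h1 := Complex.norm_mul_exp_arg_mul_I z
  rw [hz, Complex.ofReal_one, one_mul] at h1
  have hpi : (Real.pi : ℂ) ≠ 0 := by exact_mod_cast Real.pi_ne_zero
  rw [← h1]
  congr 1
  rw [h1]
  push_cast
  field_simp

theorem approx {k : ℕ} (χ : DirichletCharacter ℂ k) (f : ℕ → ℂ) (hf1 : f 1 = 1)
    (hfm : ∀ p m : ℕ, p.Prime → 1 ≤ m → f (p * m) = f p * f m)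
    (hf0 : ∀ p : ℕ, p.Prime → ¬ IsUnit (p : ZMod k) → f p = 0)
    (hfu : ∀ p : ℕ, p.Prime → IsUnit (p : ZMod k) → ‖f p‖ = 1) (N : ℕ) {ε : ℝ} (hε : 0 < ε) :
    ∃ t : ℝ, ∀ n ∈ Finset.Icc 1 N, ‖χ (n : ZMod k) * (n : ℂ) ^ (-(t * I)) - f n‖ ≤ ε := by
  by_contra hcon
  push Not at hcon
  set g : UnitAddTorus (PI N) → ℝ := fun x =>
    max 0 (ε - ∑ n ∈ Finset.Icc 1 N, ‖χ (n : ZMod k) * Th x n - f n‖) with hg
  have hgc : Continuous g := by
    refine continuous_const.max (continuous_const.sub ?_)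
    refine continuous_finsetSum _ fun n _ => ?_
    exact ((continuous_const.mul (Th_cont n)).sub continuous_const).norm
  have hline : ∀ t, g (Pool.Agent.TH109.CG.ln (lin N) t) = 0 := by
    intro t
    obtain ⟨n, hn, hn2⟩ := hcon t
    rw [hg]
    simp only
    apply max_eq_left
    have h1 := Finset.single_le_sum (s := Finset.Icc 1 N) (f := fun m : ℕ => ‖χ (m : ZMod k) *
        Th (Pool.Agent.TH109.CG.ln (lin N) t) m - f m‖) (fun _ _ => norm_nonneg _) hn
    rw [Finset.mem_Icc] at hn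
    rw [Th_line t n hn.1 hn.2] at h1
    linarith
  -- the target point
  have hz : ∀ p : PI N, ∃ x : UnitAddCircle, χ ((p : ℕ) : ZMod k) * (fourier 1 x : ℂ) = f p := by
    intro p
    by_cases hu : IsUnit (((p : ℕ) : ℕ) : ZMod k)
    · have hχ : ‖χ ((p : ℕ) : ZMod k)‖ = 1 := by
        obtain ⟨u, hu⟩ := hu
        rw [← hu]
        exact DirichletCharacter.unit_norm_eq_one χ u
      have hχ0 : χ ((p : ℕ) : ZMod k) ≠ 0 := by
        intro h; rw [h] at hχ; simp at hχ
      obtain ⟨x, hx⟩ := exists_angle (f p / χ ((p : ℕ) : ZMod k)) (by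
        rw [norm_div, hχ, hfu p (PI_prime p) hu, div_one])
      refine ⟨x, ?_⟩
      rw [hx, mul_div_cancel₀ _ hχ0]
    · refine ⟨0, ?_⟩
      rw [hf0 p (PI_prime p) hu, χ.map_nonunit hu, zero_mul]
  choose xs hxs using hz
  have hx : ∀ n : ℕ, 1 ≤ n → n ≤ N → χ (n : ZMod k) * Th xs n = f n := by
    intro n
    induction n using induction_on_primes with
    | zero => intro h; omega
    | one => intro _ _; rw [Th_one, hf1]; simp
    | prime_mul p a hp ih =>
      intro h1 h2
      have ha : a ≠ 0 := by rintro rfl; simp at h1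
      have ha1 : 1 ≤ a := Nat.pos_of_ne_zero ha
      have haN : a ≤ N := le_trans (Nat.le_mul_of_pos_left a hp.pos) h2
      have hpN : p ≤ N := le_trans (Nat.le_mul_of_pos_right p ha1) h2
      have hmem : p ∈ (Finset.range (N + 1)).filter Nat.Prime :=
        Finset.mem_filter.2 ⟨Finset.mem_range.2 (by omega), hp⟩
      have h3 := Th_prime xs (⟨p, hmem⟩ : PI N)
      have h4 := hxs ⟨p, hmem⟩
      change Th _ p = _ at h3
      change χ (p : ZMod k) * _ = f p at h4
      rw [Th_mul _ hp.ne_zero ha, hfm p a hp ha1, ← ih ha1 haN, ← h4, h3]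
      push_cast
      rw [map_mul]
      ring
  have hk := Pool.Agent.TH109.CG.kronecker (lin N) (fun n hn => logs_indep N n hn) g hgc
    (fun x => le_max_left _ _) hline xs
  have h1 : ∑ n ∈ Finset.Icc 1 N, ‖χ (n : ZMod k) * Th xs n - f n‖ = 0 := by
    refine Finset.sum_eq_zero fun n hn => ?_
    rw [Finset.mem_Icc] at hn
    rw [hx n hn.1 hn.2, sub_self, norm_zero]
  rw [hg] at hk
  simp only [h1, sub_zero] at hk
  have := le_max_right (0 : ℝ) ε
  linarith

end

end Pool.Agent.N800.TP
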