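import Mathlib
import Pool.Agent.N800.TP.B
import Pool.Agent.N800.TP.C
import Pool.Agent.Helper202.Riemann

/-!
Partial sums of Dirichlet L-series have zeros to the right of `Re s = 1`.
-/

set_option autoImplicit false

open Filter Topology Complex

namespace Pool.Agent.N800.TP

noncomputable section

/-- the limit Dirichlet series -/
def FF (T : Finset ℕ) (p : ℕ) (s : ℂ) : ℂ :=
  riemannZeta s * (∏ q ∈ T, (1 - (q : ℂ) ^ (-s))) / (1 - (-I) * (p : ℂ) ^ (-s))

/-- its residue at `1` -/
def rr (T : Finset ℕ) (p : ℕ) : ℂ := (∏ q ∈ T, (1 - 1 / (q : ℂ))) / (1 - (-I) / p)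

/-- the points `s_N(w)` -/
def sN (v : ℝ) (N : ℕ) (w : ℂ) : ℂ :=
  1 + ((2 * Real.pi * ⌊v * Real.log N / (2 * Real.pi)⌋₊ / Real.log N : ℝ) : ℂ) * I + w / (Real.log N : ℝ)

/-- the limit function -/
def Psi (T : Finset ℕ) (p : ℕ) (v : ℝ) (w : ℂ) : ℂ :=
  FF T p (1 + v * I) + rr T p * Complex.exp (-w) * (1 / (1 - (1 + v * I)))

theorem sN_re (v : ℝ) (N : ℕ) (w : ℂ) : (sN v N w).re = 1 + w.re / Real.log N := by
  unfold sN
  rw [Complex.add_re, Complex.add_re, Complex.div_ofReal_re, Complex.re_ofReal_mul, Complex.I_re,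
    mul_zero, Complex.one_re, add_zero]

theorem sN_dist {v : ℝ} (hv : 0 < v) {N : ℕ} (hN : 2 ≤ N) (w : ℂ) :
    ‖sN v N w - (1 + v * I)‖ ≤ (2 * Real.pi + ‖w‖) / Real.log N := by
  have hL : 0 < Real.log N := Real.log_pos (by exact_mod_cast (by omega : 1 < N))
  have hpi := Real.pi_pos
  set L := Real.log N with hLd
  set m := ⌊v * L / (2 * Real.pi)⌋₊ with hm
  have h0 : 0 ≤ v * L / (2 * Real.pi) := by positivity
  have h1 : (m : ℝ) ≤ v * L / (2 * Real.pi) := Nat.floor_le h0
  have h2 : v * L / (2 * Real.pi) < m + 1 := Nat.lt_floor_add_one _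
  have h3 : sN v N w - (1 + v * I) = ((2 * Real.pi * m / L - v : ℝ) : ℂ) * I + w / (L : ℝ) := by
    unfold sN
    rw [← hLd, ← hm]
    push_cast
    ring
  rw [h3]
  refine (norm_add_le _ _).trans ?_
  rw [norm_mul, norm_I, mul_one, Complex.norm_real, norm_div, Complex.norm_real, Real.norm_eq_abs,
    Real.norm_eq_abs, abs_of_pos hL, add_div]
  gcongr
  rw [abs_le]
  have h4 : (m : ℝ) * (2 * Real.pi) ≤ v * L := by
    rwa [le_div_iff₀ (by positivity)] at h1
  have h5 : v * L < (m + 1) * (2 * Real.pi) := by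
    rwa [div_lt_iff₀ (by positivity)] at h2
  constructor
  · have : v ≤ (2 * Real.pi * m + 2 * Real.pi) / L := by
      rw [le_div_iff₀ hL]; nlinarith
    rw [add_div] at this
    linarith
  · have : 2 * Real.pi * m / L ≤ v := by
      rw [div_le_iff₀ hL]; nlinarith
    have h6 : 0 ≤ 2 * Real.pi / L := by positivity
    linarith

theorem pow_sN {v : ℝ} {N : ℕ} (hN : 2 ≤ N) (w : ℂ) :
    (N : ℂ) ^ (1 - sN v N w) = Complex.exp (-w) := by
  have hL : 0 < Real.log N := Real.log_pos (by exact_mod_cast (by omega : 1 < N))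
  have hNc : (N : ℂ) ≠ 0 := by exact_mod_cast (by omega : N ≠ 0)
  have hLc : ((Real.log N : ℝ) : ℂ) ≠ 0 := by exact_mod_cast hL.ne'
  rw [Complex.cpow_def_of_ne_zero hNc]
  have h1 : Complex.log (N : ℂ) = ((Real.log N : ℝ) : ℂ) := by
    rw [Complex.ofReal_log (by positivity)]; simp
  rw [h1]
  unfold sN
  set m := ⌊v * Real.log N / (2 * Real.pi)⌋₊ with hm
  have h2 : ((Real.log N : ℝ) : ℂ) * (1 - (1 + ((2 * Real.pi * m / Real.log N : ℝ) : ℂ) * I +
      w / (Real.log N : ℝ))) = -w - (m : ℂ) * (2 * Real.pi * I) := by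
    push_cast
    push_cast at hLc
    field_simp
    ring
  rw [h2, Complex.exp_sub, Complex.exp_nat_mul, Complex.exp_two_pi_mul_I, one_pow, div_one]

theorem FF_cont {T : Finset ℕ} {p : ℕ} (hT : ∀ q ∈ T, q.Prime) (hp : p.Prime) {v : ℝ} (hv : 0 < v) :
    ContinuousAt (FF T p) (1 + v * I) := by
  have h1 : (1 + (v : ℂ) * I) ≠ 1 := by
    intro h
    have := congrArg Complex.im h
    simp at this
    linarith
  have hq : ∀ q : ℕ, q.Prime → ContinuousAt (fun s : ℂ => (q : ℂ) ^ (-s)) (1 + v * I) := by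
    intro q hq
    have hqc : (q : ℂ) ≠ 0 := by exact_mod_cast hq.ne_zero
    exact (continuous_neg.const_cpow (Or.inl hqc)).continuousAt
  unfold FF
  refine ContinuousAt.div ?_ ?_ ?_
  · refine (differentiableAt_riemannZeta h1).continuousAt.mul ?_
    refine tendsto_finsetProd _ fun q hqT => ?_
    exact (continuousAt_const.sub (hq q (hT q hqT)))
  · exact continuousAt_const.sub (continuousAt_const.mul (hq p hp))
  · exact one_sub_ne hp (by simp) (by simp)

theorem conv {T : Finset ℕ} (hT : ∀ q ∈ T, q.Prime) {p : ℕ} (hp : p.Prime) (hpT : p ∉ T) {v : ℝ}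
    (hv : 0 < v) (R0 : ℝ) (ε : ℝ) (hε : 0 < ε) :
    ∀ᶠ N : ℕ in atTop, ∀ w : ℂ, ‖w‖ < R0 →
      ‖PS (bb T p (-I)) N (sN v N w) - Psi (insert p T) p v w‖ < ε := by
  obtain ⟨C, hC, hgood⟩ := good_bb (R := 2 + v) (r := v / 2) (by positivity) T hT hp hpT
    (g := -I) (by simp)
  have hT' : ∀ q ∈ insert p T, q.Prime := by
    intro q hq
    rcases Finset.mem_insert.1 hq with rfl | hq
    · exact hp
    · exact hT q hq
  have h1 := FF_cont hT' hp hv
  have h2 : ContinuousAt (fun s : ℂ => 1 / (1 - s)) (1 + v * I) := by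
    refine ContinuousAt.div continuousAt_const (continuousAt_const.sub continuousAt_id) ?_
    intro h
    have := congrArg Complex.im h
    simp at this
    linarith
  set B : ℝ := ‖rr (insert p T) p‖ * Real.exp R0 + 1 with hB
  have hB0 : 0 < B := by positivity
  obtain ⟨η1, hη1, h1'⟩ := Metric.continuousAt_iff.1 h1 (ε / 3) (by positivity)
  obtain ⟨η2, hη2, h2'⟩ := Metric.continuousAt_iff.1 h2 (ε / (3 * B)) (by positivity)
  set η : ℝ := min (min η1 η2) (min (1 / 4) (v / 2)) with hη
  have hη0 : 0 < η := by positivity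
  have hlog : Tendsto (fun N : ℕ => Real.log N) atTop atTop :=
    Real.tendsto_log_atTop.comp tendsto_natCast_atTop_atTop
  have hsmall : ∀ᶠ N : ℕ in atTop, (2 * Real.pi + R0) / Real.log N < η :=
    (tendsto_const_nhds.div_atTop hlog).eventually (gt_mem_nhds hη0)
  have hCN : ∀ᶠ N : ℕ in atTop, C * (N : ℝ) ^ (-(1 / 4) : ℝ) < ε / 3 := by
    have h3 : Tendsto (fun N : ℕ => C * (N : ℝ) ^ (-(1 / 4) : ℝ)) atTop (𝓝 (C * 0)) := by
      refine Tendsto.const_mul C ?_
      exact (tendsto_rpow_neg_atTop (by norm_num : (0 : ℝ) < 1 / 4)).comp tendsto_natCast_atTop_atTop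
    rw [mul_zero] at h3
    exact h3.eventually (gt_mem_nhds (by positivity))
  filter_upwards [hsmall, hCN, eventually_ge_atTop 2] with N hN1 hN2 hN3 w hw
  have hL : 0 < Real.log N := Real.log_pos (by exact_mod_cast (by omega : 1 < N))
  have hd : ‖sN v N w - (1 + v * I)‖ < η := by
    refine (sN_dist hv hN3 w).trans_lt (lt_of_le_of_lt ?_ hN1)
    gcongr
  have hd1 : η ≤ η1 := (min_le_left _ _).trans (min_le_left _ _)
  have hd2 : η ≤ η2 := (min_le_left _ _).trans (min_le_right _ _)
  have hd3 : η ≤ 1 / 4 := (min_le_right _ _).trans (min_le_left _ _)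
  have hd4 : η ≤ v / 2 := (min_le_right _ _).trans (min_le_right _ _)
  set s := sN v N w with hs
  have hsK : s ∈ KK (2 + v) (v / 2) := by
    have hre := Complex.abs_re_le_norm (s - (1 + v * I))
    have hre2 : (s - (1 + v * I)).re = s.re - 1 := by simp
    rw [hre2] at hre
    have hre3 := abs_le.1 (hre.trans (hd.le.trans hd3))
    refine ⟨by linarith [hre3.1], by linarith [hre3.2], ?_, ?_⟩
    · have h4 : s = (s - (1 + v * I)) + (1 + v * I) := by ring
      rw [h4]
      refine (norm_add_le _ _).trans ?_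
      have h5 : ‖(1 : ℂ) + v * I‖ ≤ 1 + v := by
        refine (norm_add_le _ _).trans ?_
        rw [norm_one, norm_mul, norm_I, mul_one, Complex.norm_real, Real.norm_eq_abs, abs_of_pos hv]
      linarith
    · have h4 : (v : ℂ) * I = (s - 1) - (s - (1 + v * I)) := by ring
      have h5 : ‖(v : ℂ) * I‖ = v := by
        rw [norm_mul, norm_I, mul_one, Complex.norm_real, Real.norm_eq_abs, abs_of_pos hv]
      have h6 := norm_sub_le (s - 1) (s - (1 + v * I))
      rw [← h4, h5] at h6
      linarith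
  have h3 := hgood s hsK N (by exact_mod_cast (by omega : 0 < N))
  have h4 : (((N : ℝ) : ℂ)) ^ (1 - s) = Complex.exp (-w) := by
    rw [Complex.ofReal_natCast]
    exact pow_sN hN3 w
  rw [h4] at h3
  have h5 : ‖FF (insert p T) p s - FF (insert p T) p (1 + v * I)‖ < ε / 3 := by
    have := h1' (x := s) (by rw [dist_eq_norm]; exact hd.trans_le hd1)
    rwa [dist_eq_norm] at this
  have h6 : ‖1 / (1 - s) - 1 / (1 - (1 + (v : ℂ) * I))‖ < ε / (3 * B) := by
    have := h2' (x := s) (by rw [dist_eq_norm]; exact hd.trans_le hd2)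
    rwa [dist_eq_norm] at this
  have h7 : ‖rr (insert p T) p * Complex.exp (-w)‖ ≤ B := by
    rw [norm_mul, hB, Complex.norm_exp]
    have : Real.exp (-w).re ≤ Real.exp R0 := by
      rw [Real.exp_le_exp]
      have := Complex.abs_re_le_norm (-w)
      rw [norm_neg] at this
      exact (le_abs_self _).trans (this.trans hw.le)
    have h8 : ‖rr (insert p T) p‖ * Real.exp (-w).re ≤ ‖rr (insert p T) p‖ * Real.exp R0 := by gcongr
    linarith
  have h8 : PS (bb T p (-I)) N s - Psi (insert p T) p v w =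
      (PS (bb T p (-I)) N s - FF (insert p T) p s - rr (insert p T) p * (Complex.exp (-w) / (1 - s))) +
      (FF (insert p T) p s - FF (insert p T) p (1 + v * I)) +
      (rr (insert p T) p * Complex.exp (-w)) * (1 / (1 - s) - 1 / (1 - (1 + (v : ℂ) * I))) := by
    unfold Psi
    ring
  rw [h8]
  have h9 : ‖(rr (insert p T) p * Complex.exp (-w)) * (1 / (1 - s) - 1 / (1 - (1 + (v : ℂ) * I)))‖ <
      ε / 3 := by
    rw [norm_mul]
    calc ‖rr (insert p T) p * Complex.exp (-w)‖ * ‖1 / (1 - s) - 1 / (1 - (1 + (v : ℂ) * I))‖ ≤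
        B * ‖1 / (1 - s) - 1 / (1 - (1 + (v : ℂ) * I))‖ := by gcongr
      _ < B * (ε / (3 * B)) := by gcongr
      _ = ε / 3 := by field_simp
  have h10 : ‖PS (bb T p (-I)) N s - FF (insert p T) p s -
      rr (insert p T) p * (Complex.exp (-w) / (1 - s))‖ < ε / 3 := lt_of_le_of_lt h3 hN2
  calc _ ≤ ‖PS (bb T p (-I)) N s - FF (insert p T) p s -
        rr (insert p T) p * (Complex.exp (-w) / (1 - s))‖ +
        ‖FF (insert p T) p s - FF (insert p T) p (1 + v * I)‖ +
        ‖(rr (insert p T) p * Complex.exp (-w)) * (1 / (1 - s) - 1 / (1 - (1 + (v : ℂ) * I)))‖ :=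
        norm_add₃_le
    _ < ε := by linarith

/-- the partial sums of a Dirichlet L-series -/
def SX {k : ℕ} (χ : DirichletCharacter ℂ k) (N : ℕ) (s : ℂ) : ℂ :=
  ∑ n ∈ Finset.Icc 1 N, χ (n : ZMod k) * (n : ℂ) ^ (-s)

theorem SX_diff {k : ℕ} (χ : DirichletCharacter ℂ k) (N : ℕ) : Differentiable ℂ (SX χ N) := by
  unfold SX
  refine Differentiable.fun_sum fun n hn => ?_
  have hn0 : (n : ℂ) ≠ 0 := by
    rw [Finset.mem_Icc] at hn
    exact_mod_cast (by omega : n ≠ 0)
  exact (differentiable_const _).mul (differentiable_neg.const_cpow (Or.inl hn0))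

theorem main_zero {k : ℕ} (hk : k ≠ 0) (χ : DirichletCharacter ℂ k) :
    ∀ᶠ N : ℕ in atTop, ∃ s : ℂ, 1 < s.re ∧ SX χ N s = 0 := by
  -- the auxiliary prime
  obtain ⟨p, hpk, hp⟩ := Nat.exists_infinite_primes (k + 1)
  set T := k.primeFactors with hTd
  have hT : ∀ q ∈ T, q.Prime := fun q hq => Nat.prime_of_mem_primeFactors hq
  have hpT : p ∉ T := by
    intro h
    have := Nat.le_of_mem_primeFactors h
    omega
  have hT' : ∀ q ∈ insert p T, q.Prime := by
    intro q hq
    rcases Finset.mem_insert.1 hq with rfl | hq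
    · exact hp
    · exact hT q hq
  obtain ⟨v, hv, hlt⟩ := exists_v (insert p T) hT' hp
  change ‖(v : ℂ) * FF (insert p T) p (1 + v * I)‖ < ‖rr (insert p T) p‖ at hlt
  -- approximation of the twisted function by characters
  have hmul : ∀ q m : ℕ, q.Prime → 1 ≤ m →
      bb T p (-I) (q * m) = bb T p (-I) q * bb T p (-I) m := by
    intro q m hq hm
    unfold bb
    have h1 : aT T (q * m) = aT T q * aT T m := by
      by_cases hqT : q ∈ T
      · have e1 : aT T q = 0 := if_neg fun h => h q hqT dvd_rfl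
        have e2 : aT T (q * m) = 0 := if_neg fun h => h q hqT (dvd_mul_right _ _)
        rw [e1, e2, zero_mul]
      · rw [aT_mul hT hq hqT]
        have e1 : aT T q = 1 := by
          refine if_pos fun q' hq' h => ?_
          rw [Nat.prime_dvd_prime_iff_eq (hT q' hq') hq] at h
          exact hqT (h ▸ hq')
        rw [e1, one_mul]
    rw [h1, Nat.factorization_mul hq.ne_zero (by omega)]
    simp only [Finsupp.coe_add, Pi.add_apply, pow_add]
    ring
  have hone : bb T p (-I) 1 = 1 := by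
    unfold bb aT
    rw [if_pos]
    · simp
    · intro q hq h
      exact (hT q hq).one_lt.ne' (Nat.dvd_one.1 h)
  have hzero : ∀ q : ℕ, q.Prime → ¬ IsUnit (q : ZMod k) → bb T p (-I) q = 0 := by
    intro q hq hu
    have hqT : q ∈ T := by
      rw [hTd, Nat.mem_primeFactors]
      refine ⟨hq, ?_, hk⟩
      by_contra h
      exact hu ((ZMod.isUnit_iff_coprime q k).2 ((Nat.Prime.coprime_iff_not_dvd hq).2 h))
    have e1 : aT T q = 0 := if_neg fun h => h q hqT dvd_rfl
    unfold bb
    rw [e1, zero_mul]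
  have hunit : ∀ q : ℕ, q.Prime → IsUnit (q : ZMod k) → ‖bb T p (-I) q‖ = 1 := by
    intro q hq hu
    have hqT : q ∉ T := by
      intro h
      have h1 := (Nat.mem_primeFactors.1 h).2.1
      have h2 := (ZMod.isUnit_iff_coprime q k).1 hu
      exact ((Nat.Prime.coprime_iff_not_dvd hq).1 h2) h1
    have e1 : aT T q = 1 := by
      refine if_pos fun q' hq' h => ?_
      rw [Nat.prime_dvd_prime_iff_eq (hT q' hq') hq] at h
      exact hqT (h ▸ hq')
    unfold bb
    rw [e1, one_mul, norm_pow, norm_neg, norm_I, one_pow]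
  have happ : ∀ N : ℕ, ∃ t : ℝ, ∀ n ∈ Finset.Icc 1 N,
      ‖χ (n : ZMod k) * (n : ℂ) ^ (-(t * I)) - bb T p (-I) n‖ ≤ 1 / ((N : ℝ) + 1) ^ 2 := fun N =>
    approx χ (bb T p (-I)) hone hmul hzero hunit N (by positivity)
  choose t ht using happ
  -- the zero of the limit function
  have hrr : rr (insert p T) p ≠ 0 := by
    intro h
    rw [h, norm_zero] at hlt
    exact absurd hlt (not_lt.2 (norm_nonneg _))
  have hvc : (v : ℂ) ≠ 0 := by exact_mod_cast hv.ne'
  have hs0 : FF (insert p T) p (1 + v * I) ≠ 0 := by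
    unfold FF
    refine div_ne_zero (mul_ne_zero ?_ ?_) ?_
    · exact riemannZeta_ne_zero_of_one_le_re (by simp)
    · refine Finset.prod_ne_zero_iff.2 fun q hq => ?_
      have := one_sub_ne (hT' q hq) (g := 1) (by simp) (s := 1 + (v : ℂ) * I) (by simp)
      rwa [one_mul] at this
    · exact one_sub_ne hp (by simp) (by simp)
  set qq : ℂ := v * I * FF (insert p T) p (1 + v * I) / rr (insert p T) p with hqq
  have hqq0 : qq ≠ 0 := div_ne_zero (mul_ne_zero (mul_ne_zero hvc I_ne_zero) hs0) hrr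
  have hqq1 : ‖qq‖ < 1 := by
    rw [hqq, norm_div, div_lt_one (norm_pos_iff.2 hrr)]
    rwa [mul_right_comm, norm_mul, norm_I, mul_one]
  set w0 : ℂ := -Complex.log qq with hw0
  have hw0re : 0 < w0.re := by
    rw [hw0, Complex.neg_re, Complex.log_re]
    have := Real.log_neg (norm_pos_iff.2 hqq0) hqq1
    linarith
  have hexp : Complex.exp (-w0) = qq := by
    rw [hw0, neg_neg, Complex.exp_log hqq0]
  have hPsi0 : Psi (insert p T) p v w0 = 0 := by
    unfold Psi
    rw [hexp, hqq]
    have : (1 - (1 + (v : ℂ) * I)) ≠ 0 := by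
      intro h
      have := congrArg Complex.im h
      simp at this
      linarith
    field_simp
    have hI : I * I = -1 := Complex.I_mul_I
    ring
  set R0 : ℝ := ‖w0‖ + 1 with hR0
  have hR0p : 0 < R0 := by positivity
  -- contradiction hypothesis
  by_contra hcon
  rw [Filter.not_eventually] at hcon
  obtain ⟨φ, hφ, hφ2⟩ := Filter.extraction_of_frequently_atTop
    (hcon.and_eventually (eventually_ge_atTop 2))
  set V : Set ℂ := {w | 0 < w.re} ∩ Metric.ball 0 R0 with hV
  have hVo : IsOpen V := (isOpen_lt continuous_const Complex.continuous_re).inter Metric.isOpen_ball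
  set G : ℕ → ℂ → ℂ := fun i w => SX χ (φ i) (sN v (φ i) w + t (φ i) * I) with hG
  have hGd : ∀ i, DifferentiableOn ℂ (G i) V := by
    intro i
    refine Differentiable.differentiableOn ?_
    refine (SX_diff χ (φ i)).comp ?_
    unfold sN
    fun_prop
  have hGne : ∀ i, ∀ z ∈ V, G i z ≠ 0 := by
    intro i z hz h
    refine (hφ2 i).1 ⟨_, ?_, h⟩
    have hL : 0 < Real.log (φ i) :=
      Real.log_pos (by exact_mod_cast (lt_of_lt_of_le one_lt_two (hφ2 i).2))
    have h1 : (sN v (φ i) z + t (φ i) * I).re = 1 + z.re / Real.log (φ i) := by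
      rw [Complex.add_re, sN_re, Complex.re_ofReal_mul, Complex.I_re, mul_zero, add_zero]
    rw [h1]
    have := div_pos hz.1 hL
    linarith
  have hest : ∀ ε : ℝ, 0 < ε → ∀ᶠ N : ℕ in atTop, ∀ w : ℂ, ‖w‖ < R0 →
      ‖SX χ N (sN v N w + t N * I) - Psi (insert p T) p v w‖ < ε := by
    intro ε hε
    have h1 := conv hT hp hpT hv R0 (ε / 2) (by positivity)
    have hlog : Tendsto (fun N : ℕ => Real.log N) atTop atTop :=
      Real.tendsto_log_atTop.comp tendsto_natCast_atTop_atTop
    have h2 : ∀ᶠ N : ℕ in atTop, 1 / ((N : ℝ) + 1) < ε / 2 :=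
      (tendsto_one_div_add_atTop_nhds_zero_nat).eventually (gt_mem_nhds (by positivity))
    filter_upwards [h1, h2, hlog.eventually (eventually_ge_atTop R0), eventually_ge_atTop 2] with
      N hN1 hN2 hN3 hN4 w hw
    have h3 := hN1 w hw
    have hL : 0 < Real.log N := Real.log_pos (by exact_mod_cast (by omega : 1 < N))
    have hre : 0 ≤ (sN v N w).re := by
      rw [sN_re]
      have h5 := (abs_le.1 ((Complex.abs_re_le_norm w).trans hw.le)).1
      have h6 : -1 ≤ w.re / Real.log N := by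
        rw [le_div_iff₀ hL]; linarith
      linarith
    have h7 : SX χ N (sN v N w + t N * I) - PS (bb T p (-I)) N (sN v N w) =
        ∑ n ∈ Finset.Icc 1 N, (χ (n : ZMod k) * (n : ℂ) ^ (-(t N * I)) - bb T p (-I) n) *
          (n : ℂ) ^ (-(sN v N w)) := by
      unfold SX PS
      rw [Nat.floor_natCast, ← Finset.sum_sub_distrib]
      refine Finset.sum_congr rfl fun n hn => ?_
      rw [Finset.mem_Icc] at hn
      have hn0 : (n : ℂ) ≠ 0 := by exact_mod_cast (by omega : n ≠ 0)
      rw [neg_add, Complex.cpow_add _ _ hn0]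
      ring
    have h8 : ‖SX χ N (sN v N w + t N * I) - PS (bb T p (-I)) N (sN v N w)‖ ≤
        1 / ((N : ℝ) + 1) := by
      rw [h7]
      calc ‖∑ n ∈ Finset.Icc 1 N, (χ (n : ZMod k) * (n : ℂ) ^ (-(t N * I)) - bb T p (-I) n) *
          (n : ℂ) ^ (-(sN v N w))‖ ≤ ∑ n ∈ Finset.Icc 1 N, 1 / ((N : ℝ) + 1) ^ 2 := by
            refine norm_sum_le_of_le _ fun n hn => ?_
            rw [norm_mul]
            have h9 := ht N n hn
            rw [Finset.mem_Icc] at hn
            have h10 : ‖(n : ℂ) ^ (-(sN v N w))‖ ≤ 1 := by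
              have hn1 : (1 : ℝ) ≤ n := by exact_mod_cast hn.1
              rw [← Complex.ofReal_natCast, Complex.norm_cpow_eq_rpow_re_of_pos (by linarith)]
              refine Real.rpow_le_one_of_one_le_of_nonpos hn1 ?_
              simp; linarith
            calc _ ≤ 1 / ((N : ℝ) + 1) ^ 2 * 1 := by gcongr
              _ = _ := mul_one _
        _ = N * (1 / ((N : ℝ) + 1) ^ 2) := by simp
        _ ≤ ((N : ℝ) + 1) * (1 / ((N : ℝ) + 1) ^ 2) := by gcongr; linarith
        _ = 1 / ((N : ℝ) + 1) := by field_simp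
    calc _ = ‖(SX χ N (sN v N w + t N * I) - PS (bb T p (-I)) N (sN v N w)) +
          (PS (bb T p (-I)) N (sN v N w) - Psi (insert p T) p v w)‖ := by congr 1; ring
      _ ≤ _ := norm_add_le _ _
      _ < ε := by linarith
  have hlim : TendstoLocallyUniformlyOn G (Psi (insert p T) p v) atTop V := by
    rw [Metric.tendstoLocallyUniformlyOn_iff]
    intro ε hε x hx
    refine ⟨V, self_mem_nhdsWithin, ?_⟩
    filter_upwards [hφ.tendsto_atTop.eventually (hest ε hε)] with i hi y hy
    rw [dist_comm, dist_eq_norm]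
    refine hi y ?_
    have := hy.2
    rwa [Metric.mem_ball, dist_zero_right] at this
  have hw0V : w0 ∈ V := by
    refine ⟨hw0re, ?_⟩
    rw [Metric.mem_ball, dist_zero_right, hR0]
    linarith
  have hfin := Pool.Agent.Helper202.Riemann.hurwitz hVo hGd hlim hGne hw0V hPsi0
  -- the limit function is not locally zero
  have hder : HasDerivAt (Psi (insert p T) p v)
      (rr (insert p T) p * (-Complex.exp (-w0)) * (1 / (1 - (1 + (v : ℂ) * I)))) w0 := by
    unfold Psi
    have h1 : HasDerivAt (fun w : ℂ => Complex.exp (-w)) (-Complex.exp (-w0)) w0 := by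
      have := (hasDerivAt_neg w0).cexp
      simpa using this
    exact ((h1.const_mul _).mul_const _).const_add _
  have hder0 : HasDerivAt (Psi (insert p T) p v) 0 w0 := by
    refine (hasDerivAt_const w0 (0 : ℂ)).congr_of_eventuallyEq ?_
    exact hfin
  have := hder.unique hder0
  have h2 : (1 / (1 - (1 + (v : ℂ) * I))) ≠ 0 := by
    refine one_div_ne_zero ?_
    intro h
    have := congrArg Complex.im h
    simp at this
    linarith
  refine (mul_ne_zero (mul_ne_zero hrr (neg_ne_zero.2 (Complex.exp_ne_zero _))) h2) this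

end

end Pool.Agent.N800.TP
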